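import Pool.Agent.W203.SP.Stm

/-!
# SP-M4: the averaged fourth moment on the sphere
-/

set_option autoImplicit false

open MeasureTheory Set Complex
open scoped ENNReal NNReal FourierTransform RealInnerProductSpace ContDiff ComplexConjugate
open Pool.Agent.H153R4 (E BS ch ST cube kk dd)

namespace Pool.Agent.W554.SP

open Pool.Agent.W203.SP

variable {k : ℕ}

theorem scale1 {F : ℝ → ℝ≥0∞} (hF : Measurable F) {c : ℝ} (hc : 0 < c) :
    ∫⁻ x, F x = ENNReal.ofReal c * ∫⁻ t, F (c * t) := by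
  have h1 : ∫⁻ t, F (c * t) = ∫⁻ x, F x ∂(Measure.map (c * ·) volume) := by
    rw [lintegral_map hF (measurable_const_mul c)]
  rw [h1, Real.map_volume_mul_left hc.ne', lintegral_smul_measure, smul_eq_mul, ← mul_assoc,
    ← ENNReal.ofReal_mul hc.le, abs_inv, abs_of_pos hc, mul_inv_cancel₀ hc.ne',
    ENNReal.ofReal_one, one_mul]

theorem scaleN {F : (Fin k → ℝ) → ℝ≥0∞} (hF : Measurable F) {c : ℝ} (hc : 1 ≤ c) :
    ∫⁻ s, F (c • s) ≤ ∫⁻ u, F u := by
  have h1 : ∫⁻ s, F (c • s) = ∫⁻ x, F x ∂(Measure.map (c • ·) volume) := by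
    rw [lintegral_map hF (measurable_const_smul c)]
  rw [h1, Measure.map_addHaar_smul _ (by linarith : c ≠ 0), lintegral_smul_measure, smul_eq_mul]
  have h2 : ENNReal.ofReal |(c ^ Module.finrank ℝ (Fin k → ℝ))⁻¹| ≤ 1 := by
    rw [ENNReal.ofReal_le_one, abs_inv, abs_of_pos (by positivity)]
    exact inv_le_one_of_one_le₀ (one_le_pow₀ hc)
  calc _ ≤ 1 * _ := mul_le_mul_left h2 _
    _ = _ := one_mul _

theorem FT_const (c : ℂ) (g : E k → ℂ) (x : E k) : 𝓕 (fun z => c * g z) x = c * 𝓕 g x := by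
  rw [Real.fourier_eq, Real.fourier_eq, ← integral_const_mul]
  refine integral_congr_ae (Filter.Eventually.of_forall fun v => ?_)
  simp only [Circle.smul_def, smul_eq_mul]
  ring

theorem FT_conj (g : E k → ℂ) (x : E k) :
    𝓕 (fun z => (starRingEnd ℂ) (g z)) x = (starRingEnd ℂ) (𝓕 g (-x)) := by
  rw [Real.fourier_eq, Real.fourier_eq, ← integral_conj]
  refine integral_congr_ae (Filter.Eventually.of_forall fun v => ?_)
  simp only [Circle.smul_def, smul_eq_mul, map_mul, inner_neg_right, neg_neg]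
  congr 1
  rw [← Circle.coe_inv_eq_conj, ← AddChar.map_neg_eq_inv]

theorem conj_mom (g : E k → ℂ) :
    ∫⁻ x, ‖𝓕 (fun z => (starRingEnd ℂ) (g z)) x‖ₑ ^ 4 = ∫⁻ x, ‖𝓕 g x‖ₑ ^ 4 := by
  rw [← lintegral_neg_eq_self (μ := (volume : Measure (E k))) (f := fun x => ‖𝓕 g x‖ₑ ^ 4)]
  refine lintegral_congr fun x => ?_
  rw [FT_conj, RCLike.enorm_conj]

theorem ee_conj (x : ℝ) : ee (-x) = (starRingEnd ℂ) (ee x) := by
  unfold ee
  rw [← Complex.exp_conj]
  congr 1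
  rw [map_mul, Complex.conj_I, Complex.conj_ofReal]
  push_cast
  ring

theorem toBS {M : ℝ} {f : E k → ℂ} (hf : DS M f) : BS M f := by
  refine ⟨hf.meas, hf.bd, fun z hz => hf.supp z ?_⟩
  by_contra h
  push Not at h
  apply hz
  intro j
  have := PiLp.norm_apply_le z j
  rw [Real.norm_eq_abs] at this
  exact this.trans h

theorem pw_bd {b : ℝ} (hb0 : 0 ≤ b) {s : Fin k → ℝ}
    (hs : s ∈ Icc (fun _ : Fin k => (0 : ℝ)) (fun _ => b)) {z : E k} (hz : ‖z‖ ≤ 1) :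
    1 - b ≤ pw 1 s z ∧ pw 1 s z ≤ 1 := by
  unfold pw
  have h1 : 0 ≤ ∑ j, s j * z j ^ 2 :=
    Finset.sum_nonneg fun j _ => mul_nonneg (hs.1 j) (sq_nonneg _)
  have h2 : ∑ j, s j * z j ^ 2 ≤ b * ‖z‖ ^ 2 := by
    rw [EuclideanSpace.norm_sq_eq, Finset.mul_sum]
    refine Finset.sum_le_sum fun j _ => ?_
    rw [Real.norm_eq_abs, sq_abs]
    exact mul_le_mul_of_nonneg_right (hs.2 j) (sq_nonneg _)
  have h3 : ‖z‖ ^ 2 ≤ 1 := by
    have := norm_nonneg z
    nlinarith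
  constructor
  · nlinarith
  · linarith

theorem key {m : ℕ} {b : ℝ} (hb0 : 0 ≤ b) (hb : b < 1) {η : ℝ → ℂ}
    (hη : ∀ p ∈ Icc (1 - b) 2, η p = ((1 / Real.sqrt p ^ m : ℝ) : ℂ)) {M : ℝ} {f : E k → ℂ}
    (hf : DS M f) {w : ℝ} (hw : w ∈ Icc (1 : ℝ) 2) (t : ℝ) {s : Fin k → ℝ}
    (hs : s ∈ Icc (fun _ : Fin k => (0 : ℝ)) (fun _ => b)) :
    gs m (Real.sqrt w * t) s f =
      fun z => ((Real.sqrt w ^ m : ℝ) : ℂ) * ge η t w (w • s) f z := by
  funext z
  by_cases hz : 1 < ‖z‖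
  · unfold gs ge
    rw [hf.supp z hz]
    simp
  · push Not at hz
    obtain ⟨h1, h2⟩ := pw_bd hb0 hs hz
    have e1 : pw w (w • s) z = w * pw 1 s z := by
      unfold pw
      rw [mul_sub, mul_one, Finset.mul_sum]
      congr 1
      refine Finset.sum_congr rfl fun j _ => ?_
      simp only [Pi.smul_apply, smul_eq_mul]
      ring
    have hp : 0 < pw 1 s z := by linarith
    have hw0 : 0 < w := by linarith [hw.1]
    have h3 : w * pw 1 s z ∈ Icc (1 - b) 2 := by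
      constructor
      · nlinarith [hw.1]
      · nlinarith [hw.2]
    unfold gs ge
    rw [e1, hη _ h3, Real.sqrt_mul hw0.le]
    have hq : Real.sqrt w ≠ 0 := (Real.sqrt_pos.2 hw0).ne'
    have hq2 : Real.sqrt (pw 1 s z) ≠ 0 := (Real.sqrt_pos.2 hp).ne'
    have e2 : t * (Real.sqrt w * Real.sqrt (pw 1 s z)) = Real.sqrt w * t * Real.sqrt (pw 1 s z) := by
      ring
    have e3 : (1 / Real.sqrt (pw 1 s z) ^ m : ℝ) =
        Real.sqrt w ^ m * (1 / (Real.sqrt w * Real.sqrt (pw 1 s z)) ^ m) := by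
      rw [mul_pow]
      field_simp
    rw [e2, e3, Complex.ofReal_mul]
    ring

theorem key2 {m : ℕ} {b : ℝ} (hb0 : 0 ≤ b) (hb : b < 1) {η : ℝ → ℂ}
    (hη : ∀ p ∈ Icc (1 - b) 2, η p = ((1 / Real.sqrt p ^ m : ℝ) : ℂ)) {M : ℝ} {f : E k → ℂ}
    (hf : DS M f) {w : ℝ} (hw : w ∈ Icc (1 : ℝ) 2) (t : ℝ) {s : Fin k → ℝ}
    (hs : s ∈ Icc (fun _ : Fin k => (0 : ℝ)) (fun _ => b)) :
    ∫⁻ x, ‖𝓕 (gs m (Real.sqrt w * t) s f) x‖ₑ ^ 4 ≤
      4 ^ m * ∫⁻ x, ‖𝓕 (ge η t w (w • s) f) x‖ₑ ^ 4 := by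
  rw [key hb0 hb hη hf hw t hs, ← lintegral_const_mul' _ _ (ENNReal.pow_ne_top (by norm_num))]
  refine lintegral_mono fun x => ?_
  show ‖𝓕 (fun z => ((Real.sqrt w ^ m : ℝ) : ℂ) * ge η t w (w • s) f z) x‖ₑ ^ 4 ≤ _
  rw [FT_const, enorm_mul, mul_pow]
  refine mul_le_mul_left ?_ _
  have hw0 : 0 ≤ w := by linarith [hw.1]
  rw [← ofReal_norm, Complex.norm_real, Real.norm_eq_abs, abs_of_nonneg (by positivity),
    ← ENNReal.ofReal_pow (by positivity), ← pow_mul, mul_comm m 4, pow_mul]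
  have e : Real.sqrt w ^ 4 = w ^ 2 := by
    have : Real.sqrt w ^ 2 = w := Real.sq_sqrt hw0
    calc Real.sqrt w ^ 4 = (Real.sqrt w ^ 2) ^ 2 := by ring
      _ = w ^ 2 := by rw [this]
  rw [e]
  have h4 : (4 : ℝ≥0∞) = ENNReal.ofReal 4 := by simp
  rw [h4, ← ENNReal.ofReal_pow (by norm_num)]
  apply ENNReal.ofReal_le_ofReal
  refine pow_le_pow_left₀ (by positivity) ?_ m
  nlinarith [hw.2]

/-- the moment for one time and one parameter -/
noncomputable def Fi (m : ℕ) (f : E k → ℂ) (t : ℝ) (s : Fin k → ℝ) : ℝ≥0∞ :=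
  ∫⁻ x, ‖𝓕 (gs m t s f) x‖ₑ ^ 4

/-- the moment with a cut-off amplitude -/
noncomputable def Ps (η : ℝ → ℂ) (f : E k → ℂ) (t w : ℝ) (u : Fin k → ℝ) : ℝ≥0∞ :=
  ∫⁻ x, ‖𝓕 (ge η t w u f) x‖ₑ ^ 4

theorem Fi_meas (hMG : S_MG) (m : ℕ) {f : E k → ℂ} (hf : Measurable f) :
    Measurable (fun q : ℝ × (Fin k → ℝ) => Fi m f q.1 q.2) := by
  have h := (hMG k m (fun _ => 0) f measurable_const hf).2
  exact (h.enorm.pow_const 4).lintegral_prod_right'

theorem Ps_meas (hMG : S_MG) {η : ℝ → ℂ} (hη : Measurable η) {f : E k → ℂ} (hf : Measurable f) :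
    Measurable (fun q : (ℝ × ℝ) × (Fin k → ℝ) => Ps η f q.1.1 q.1.2 q.2) := by
  have h := (hMG k 0 η f hη hf).1
  exact (h.enorm.pow_const 4).lintegral_prod_right'

/-- the box of the parameters -/
def bx (k : ℕ) (b : ℝ) : Set (Fin k → ℝ) := Icc (fun _ : Fin k => (0 : ℝ)) (fun _ => b)

theorem bx_meas (b : ℝ) : MeasurableSet (bx k b) := measurableSet_Icc

theorem inner_le (hMG : S_MG) {m : ℕ} {b : ℝ} (hb0 : 0 ≤ b) (hb : b < 1) {η : ℝ → ℂ}
    (hηm : Measurable η)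
    (hη : ∀ p ∈ Icc (1 - b) 2, η p = ((1 / Real.sqrt p ^ m : ℝ) : ℂ)) {M : ℝ} {f : E k → ℂ}
    (hf : DS M f) {w : ℝ} (hw : w ∈ Icc (1 : ℝ) 2) (t : ℝ) :
    ∫⁻ s in bx k b, Fi m f (Real.sqrt w * t) s ≤ 4 ^ m * ∫⁻ u in bx k 2, Ps η f t w u := by
  have hm : Measurable (fun u => (bx k 2).indicator (fun u => Ps η f t w u) u) := by
    refine Measurable.indicator ?_ (bx_meas 2)
    exact (Ps_meas hMG hηm hf.meas).comp (g := fun q : (ℝ × ℝ) × (Fin k → ℝ) =>
      Ps η f q.1.1 q.1.2 q.2) (f := fun u : Fin k → ℝ => ((t, w), u)) (by fun_prop)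
  calc ∫⁻ s in bx k b, Fi m f (Real.sqrt w * t) s
      ≤ ∫⁻ s in bx k b, 4 ^ m * Ps η f t w (w • s) :=
        setLIntegral_mono' (bx_meas b) fun s hs => key2 hb0 hb hη hf hw t hs
    _ = 4 ^ m * ∫⁻ s in bx k b, Ps η f t w (w • s) :=
        lintegral_const_mul' _ _ (ENNReal.pow_ne_top (by norm_num))
    _ ≤ 4 ^ m * ∫⁻ s, (bx k 2).indicator (fun u => Ps η f t w u) (w • s) := by
        refine mul_le_mul_right ?_ _
        rw [← lintegral_indicator (bx_meas b)]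
        refine lintegral_mono fun s => ?_
        by_cases hs : s ∈ bx k b
        · rw [indicator_of_mem hs, indicator_of_mem]
          constructor
          · intro j
            have := hs.1 j
            have hw0 : 0 ≤ w := by linarith [hw.1]
            simpa using mul_nonneg hw0 this
          · intro j
            have h1 := hs.2 j
            have h2 := hs.1 j
            simp only [Pi.smul_apply, smul_eq_mul] at *
            nlinarith [hw.1, hw.2]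
        · rw [indicator_of_notMem hs]
          exact bot_le
    _ ≤ 4 ^ m * ∫⁻ u, (bx k 2).indicator (fun u => Ps η f t w u) u :=
        mul_le_mul_right (scaleN hm hw.1) _
    _ = 4 ^ m * ∫⁻ u in bx k 2, Ps η f t w u := by
        rw [lintegral_indicator (bx_meas 2)]

/-- the moment over positive times -/
noncomputable def P (m : ℕ) (b T : ℝ) (f : E k → ℂ) : ℝ≥0∞ :=
  ∫⁻ t in Icc T (2 * T), ∫⁻ s in bx k b, Fi m f t s

theorem step_w (hMG : S_MG) {m : ℕ} {b : ℝ} (hb0 : 0 ≤ b) (hb : b < 1) {η : ℝ → ℂ}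
    (hηm : Measurable η)
    (hη : ∀ p ∈ Icc (1 - b) 2, η p = ((1 / Real.sqrt p ^ m : ℝ) : ℂ)) {M : ℝ} {f : E k → ℂ}
    (hf : DS M f) {w : ℝ} (hw : w ∈ Icc (1 : ℝ) 2) {T : ℝ} (hT : 1 ≤ T) :
    P m b T f ≤ 2 * 4 ^ m * ∫⁻ t in Icc (T / 2) (2 * T), ∫⁻ u in bx k 2, Ps η f t w u := by
  have hF : Measurable (fun t => ∫⁻ s in bx k b, Fi m f t s) :=
    (Fi_meas hMG m hf.meas).lintegral_prod_right'
  have hF2 : Measurable ((Icc T (2 * T)).indicator (fun t => ∫⁻ s in bx k b, Fi m f t s)) :=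
    hF.indicator measurableSet_Icc
  have hw0 : 0 < w := by linarith [hw.1]
  have hq : 0 < Real.sqrt w := Real.sqrt_pos.2 hw0
  have hq1 : 1 ≤ Real.sqrt w := Real.one_le_sqrt.2 hw.1
  have hq2 : Real.sqrt w ≤ 2 := by
    rw [Real.sqrt_le_left (by norm_num)]
    linarith [hw.2]
  unfold P
  rw [← lintegral_indicator measurableSet_Icc, scale1 hF2 hq, mul_assoc]
  have h2 : ENNReal.ofReal (Real.sqrt w) ≤ 2 := by
    have : (2 : ℝ≥0∞) = ENNReal.ofReal 2 := by simp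
    rw [this]
    exact ENNReal.ofReal_le_ofReal hq2
  refine mul_le_mul h2 ?_ bot_le bot_le
  rw [← lintegral_const_mul' _ _ (ENNReal.pow_ne_top (by norm_num)),
    ← lintegral_indicator (s := Icc (T / 2) (2 * T)) measurableSet_Icc]
  refine lintegral_mono fun t => ?_
  show (Icc T (2 * T)).indicator (fun t => ∫⁻ s in bx k b, Fi m f t s) (Real.sqrt w * t) ≤ _
  by_cases ht : Real.sqrt w * t ∈ Icc T (2 * T)
  · rw [indicator_of_mem ht]
    have ht0 : 0 ≤ t := by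
      by_contra h
      push Not at h
      have := ht.1
      nlinarith
    have ht2 : t ∈ Icc (T / 2) (2 * T) := by
      constructor
      · have := ht.1
        nlinarith
      · have := ht.2
        nlinarith
    rw [indicator_of_mem ht2]
    exact inner_le hMG hb0 hb hηm hη hf hw t
  · rw [indicator_of_notMem ht]
    exact bot_le

theorem P_le (hMG : S_MG) {m : ℕ} {b : ℝ} (hb0 : 0 ≤ b) (hb : b < 1) {η : ℝ → ℂ}
    (hηm : Measurable η)
    (hη : ∀ p ∈ Icc (1 - b) 2, η p = ((1 / Real.sqrt p ^ m : ℝ) : ℂ)) {M : ℝ} {f : E k → ℂ}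
    (hf : DS M f) {T : ℝ} (hT : 1 ≤ T) :
    P m b T f ≤ 2 * 4 ^ m * ∫⁻ t in Icc (T / 2) (2 * T), ∫⁻ w in Icc (1 : ℝ) 2,
      ∫⁻ u in bx k 2, Ps η f t w u := by
  have h1 : P m b T f = ∫⁻ _ in Icc (1 : ℝ) 2, P m b T f := by
    rw [lintegral_const, Measure.restrict_apply_univ, Real.volume_Icc]
    norm_num
  have hne : (2 * 4 ^ m : ℝ≥0∞) ≠ ⊤ :=
    ENNReal.mul_ne_top (by norm_num) (ENNReal.pow_ne_top (by norm_num))
  have hm : Measurable (fun q : ℝ × ℝ => ∫⁻ u in bx k 2, Ps η f q.1 q.2 u) :=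
    (Ps_meas hMG hηm hf.meas).lintegral_prod_right'
  rw [h1]
  calc ∫⁻ _ in Icc (1 : ℝ) 2, P m b T f
      ≤ ∫⁻ w in Icc (1 : ℝ) 2, 2 * 4 ^ m * ∫⁻ t in Icc (T / 2) (2 * T),
          ∫⁻ u in bx k 2, Ps η f t w u :=
        setLIntegral_mono' measurableSet_Icc fun w hw => step_w hMG hb0 hb hηm hη hf hw hT
    _ = 2 * 4 ^ m * ∫⁻ w in Icc (1 : ℝ) 2, ∫⁻ t in Icc (T / 2) (2 * T),
          ∫⁻ u in bx k 2, Ps η f t w u := lintegral_const_mul' _ _ hne
    _ = _ := by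
        rw [lintegral_lintegral_swap]
        exact (hm.comp measurable_swap).aemeasurable

theorem gs_conj (m : ℕ) (t : ℝ) (s : Fin k → ℝ) (f : E k → ℂ) :
    gs m (-t) s f = fun z => (starRingEnd ℂ) (gs m t s (fun z => (starRingEnd ℂ) (f z)) z) := by
  funext z
  unfold gs
  rw [map_mul, map_mul, Complex.conj_conj, Complex.conj_ofReal, neg_mul, ee_conj]

theorem Fi_neg (m : ℕ) (t : ℝ) (s : Fin k → ℝ) (f : E k → ℂ) :
    Fi m f (-t) s = Fi m (fun z => (starRingEnd ℂ) (f z)) t s := by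
  unfold Fi
  rw [gs_conj, conj_mom]

theorem conjDS {M : ℝ} {f : E k → ℂ} (hf : DS M f) : DS M (fun z => (starRingEnd ℂ) (f z)) := by
  refine ⟨?_, fun z => ?_, fun z hz => ?_⟩
  · exact Complex.continuous_conj.measurable.comp hf.meas
  · rw [RCLike.norm_conj]
    exact hf.bd z
  · rw [hf.supp z hz, map_zero]

/-- D6. The averaged fourth moment on the sphere. -/
theorem t_M4 (h1 : S_ME) (h2 : S_AMP) (h3 : S_MG) : S_M4 := by
  intro k m b e hb0 hb he
  obtain ⟨η, hηG, hη⟩ := h2 m (1 - b) (by linarith)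
  have hηm : Measurable η := hηG.1.continuous.measurable
  obtain ⟨C, hC, hME⟩ := h1 k η hηG e he
  refine ⟨2 * (2 * 4 ^ m * C), ENNReal.mul_lt_top (by norm_num) (ENNReal.mul_lt_top
    (ENNReal.mul_lt_top (by norm_num) (ENNReal.pow_lt_top (by norm_num))) hC), ?_⟩
  intro T hT M f hf
  have hP : ∀ g : E k → ℂ, DS M g → P m b T g ≤
      2 * 4 ^ m * (C * ENNReal.ofReal (T ^ (1 - k + e)) * ∫⁻ z, ‖g z‖ₑ ^ 4) := by
    intro g hg
    exact (P_le h3 hb0 hb hηm hη hg hT).trans (mul_le_mul_right (hME T hT M g (toBS hg)) _)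
  have hFm := Fi_meas h3 m hf.meas
  have hsw : ∫⁻ s in bx k b, DM m T s f = ∫⁻ t in ST T, ∫⁻ s in bx k b, Fi m f t s := by
    unfold DM
    show ∫⁻ s in bx k b, ∫⁻ t in ST T, Fi m f t s = _
    rw [lintegral_lintegral_swap]
    exact (hFm.comp measurable_swap).aemeasurable
  have hst : ST T ⊆ Icc T (2 * T) ∪ Icc (-(2 * T)) (-T) := by
    intro t ht
    have h1 := ht.1
    have h2 := ht.2
    rcases abs_cases t with h | h
    · left
      rw [h.1] at h1 h2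
      exact ⟨h1, h2⟩
    · right
      rw [h.1] at h1 h2
      exact ⟨by linarith, by linarith⟩
  have hneg : ∫⁻ t in Icc (-(2 * T)) (-T), ∫⁻ s in bx k b, Fi m f t s =
      P m b T (fun z => (starRingEnd ℂ) (f z)) := by
    unfold P
    rw [← lintegral_indicator measurableSet_Icc, ← lintegral_indicator measurableSet_Icc,
      ← lintegral_neg_eq_self (μ := (volume : Measure ℝ))]
    refine lintegral_congr fun t => ?_
    by_cases ht : t ∈ Icc T (2 * T)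
    · have ht2 : -t ∈ Icc (-(2 * T)) (-T) := ⟨by linarith [ht.2], by linarith [ht.1]⟩
      rw [indicator_of_mem ht, indicator_of_mem ht2]
      refine lintegral_congr fun s => ?_
      exact Fi_neg m t s f
    · have ht2 : -t ∉ Icc (-(2 * T)) (-T) := fun h => ht ⟨by linarith [h.2], by linarith [h.1]⟩
      rw [indicator_of_notMem ht, indicator_of_notMem ht2]
  show ∫⁻ s in bx k b, DM m T s f ≤ _
  rw [hsw]
  calc ∫⁻ t in ST T, ∫⁻ s in bx k b, Fi m f t s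
      ≤ ∫⁻ t in Icc T (2 * T) ∪ Icc (-(2 * T)) (-T), ∫⁻ s in bx k b, Fi m f t s :=
        lintegral_mono_set hst
    _ ≤ P m b T f + P m b T (fun z => (starRingEnd ℂ) (f z)) := by
        rw [← hneg]
        exact lintegral_union_le _ _ _
    _ ≤ 2 * 4 ^ m * (C * ENNReal.ofReal (T ^ (1 - k + e)) * ∫⁻ z, ‖f z‖ₑ ^ 4) +
        2 * 4 ^ m * (C * ENNReal.ofReal (T ^ (1 - k + e)) * ∫⁻ z, ‖f z‖ₑ ^ 4) := by
        refine add_le_add (hP f hf) ?_
        have h := hP _ (conjDS hf)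
        simpa only [RCLike.enorm_conj] using h
    _ = 2 * (2 * 4 ^ m * C) * ENNReal.ofReal (T ^ (1 - k + e)) * ∫⁻ z, ‖f z‖ₑ ^ 4 := by
        ring

end Pool.Agent.W554.SP
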