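import Pool.Agent.W798.SP.Basic

/-!
# SPX-GC: the conditional Gibbs inequality
-/

set_option autoImplicit false
set_option linter.unusedSectionVars false

open Finset
open scoped Classical

namespace Pool.Agent.W554.SPX

open Pool.Agent.W904.AK Pool.Agent.W798.SP

section one
variable {Ω α β : Type} [Fintype Ω] {q : Ω → ℝ}

lemma sum_div_im (f : Ω → α) (s : Finset α) (φ : α → ℝ)
    (hφ : ∀ a ∈ s, 0 ≤ φ a) (hs : ∀ x, q x ≠ 0 → f x ∈ s) :
    ∑ x, q x * (φ (f x) / im q f (f x)) ≤ ∑ a ∈ s, φ a := by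
  have h1 : ∀ x, q x * (φ (f x) / im q f (f x)) =
      ∑ a ∈ s, (if f x = a then q x else 0) * (φ a / im q f a) := by
    intro x
    by_cases hx : q x = 0
    · simp [hx]
    · rw [Finset.sum_eq_single (f x)]
      · rw [if_pos rfl]
      · intro b _ hb
        rw [if_neg (Ne.symm hb), zero_mul]
      · intro h
        exact absurd (hs x hx) h
  rw [Finset.sum_congr rfl fun x _ => h1 x, Finset.sum_comm]
  refine Finset.sum_le_sum fun a ha => ?_
  rw [← Finset.sum_mul, ← im_eq_sum]
  by_cases h0 : im q f a = 0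
  · rw [h0, zero_mul]
    exact hφ a ha
  · rw [mul_div_cancel₀ _ h0]

lemma sum_im_le (hq : IsLaw q) (f : Ω → α) (s : Finset α) : ∑ a ∈ s, im q f a ≤ 1 := by
  rw [← hq.total]
  simp only [im_eq_sum]
  rw [Finset.sum_comm]
  refine Finset.sum_le_sum fun x _ => ?_
  rw [Finset.sum_ite_eq]
  split_ifs
  exacts [le_rfl, hq.nonneg x]

lemma stepA (hq : IsLaw q) (f : Ω → α) (g : Ω → β) (F : Finset α) (G : α → Finset β)
    (hs : ∀ x, q x ≠ 0 → f x ∈ F ∧ g x ∈ G (f x)) :
    H q (fun x => (f x, g x)) - H q f ≤ ∑ x, q x * Real.log ((G (f x)).card) := by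
  set k : Ω → α × β := fun x => (f x, g x) with hk
  set φ : α × β → ℝ := fun t => im q f t.1 / (G t.1).card with hφ
  set s' : Finset (α × β) := (F ×ˢ F.biUnion G).filter (fun t => t.2 ∈ G t.1) with hs'
  have hks : ∀ x, q x ≠ 0 → k x ∈ s' := by
    intro x hx
    obtain ⟨h1, h2⟩ := hs x hx
    rw [hs', Finset.mem_filter, Finset.mem_product, Finset.mem_biUnion]
    exact ⟨⟨h1, f x, h1, h2⟩, h2⟩
  have hsum : ∑ x, q x * (φ (k x) / im q k (k x)) ≤ 1 := by
    refine (sum_div_im k s' φ (fun t _ => div_nonneg (im_nonneg hq f _) (Nat.cast_nonneg _))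
      hks).trans ?_
    rw [hs', Finset.sum_filter, Finset.sum_product]
    refine le_trans (Finset.sum_le_sum fun a ha => ?_) (sum_im_le hq f F)
    rw [← Finset.sum_filter]
    have e1 : (F.biUnion G).filter (fun b => b ∈ G a) = G a := by
      ext b
      rw [Finset.mem_filter, Finset.mem_biUnion]
      exact ⟨fun h => h.2, fun h => ⟨⟨a, ha, h⟩, h⟩⟩
    have e5 : ∑ b ∈ G a, φ (a, b) = (G a).card * (im q f a / (G a).card) := by
      rw [← nsmul_eq_mul, ← Finset.sum_const]
    rw [e1, e5]
    by_cases h0 : ((G a).card : ℝ) = 0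
    · rw [h0, zero_mul]
      exact im_nonneg hq f a
    · rw [mul_div_cancel₀ _ h0]
  have hpt : ∀ x, q x * -Real.log (im q k (k x)) - q x * -Real.log (im q f (f x)) -
      q x * Real.log ((G (f x)).card) ≤ q x * (φ (k x) / im q k (k x)) - q x := by
    intro x
    by_cases hx : q x = 0
    · simp [hx]
    have h1 := im_pos hq f hx
    have h2 := im_pos hq k hx
    have h3 : (0 : ℝ) < (G (f x)).card := by
      exact_mod_cast Finset.card_pos.2 ⟨g x, (hs x hx).2⟩
    have h4 : Real.log (φ (k x) / im q k (k x)) = Real.log (im q f (f x)) -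
        Real.log ((G (f x)).card) - Real.log (im q k (k x)) := by
      have e : φ (k x) = im q f (f x) / (G (f x)).card := rfl
      rw [e, Real.log_div (div_pos h1 h3).ne' h2.ne', Real.log_div h1.ne' h3.ne']
    have h5 : 0 < φ (k x) / im q k (k x) := div_pos (div_pos h1 h3) h2
    have h6 := Real.log_le_sub_one_of_pos h5
    rw [h4] at h6
    have h7 := mul_le_mul_of_nonneg_left h6 (hq.nonneg x)
    linarith
  have := Finset.sum_le_sum fun x (_ : x ∈ Finset.univ) => hpt x
  rw [Finset.sum_sub_distrib, Finset.sum_sub_distrib, Finset.sum_sub_distrib, hq.total] at this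
  have e2 : H q k = ∑ x, q x * -Real.log (im q k (k x)) := rfl
  have e3 : H q f = ∑ x, q x * -Real.log (im q f (f x)) := rfl
  rw [e2, e3]
  linarith

lemma step1 (hq : IsLaw q) (f : Ω → α) (g : Ω → β) (F : Finset α) (G : α → Finset β) (d : ℕ)
    (B : ℝ) (hs : ∀ x, q x ≠ 0 → f x ∈ F ∧ g x ∈ G (f x))
    (hB : ∑ a ∈ F, ((G a).card : ℝ) ^ d ≤ B) :
    d * H q (fun x => (f x, g x)) - (d - 1) * H q f ≤ Real.log B := by
  have hA := stepA hq f g F G hs
  -- `B` is positive
  have hB0 : 0 < B := by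
    obtain ⟨x, -, hx⟩ := Finset.exists_ne_zero_of_sum_ne_zero (s := Finset.univ) (f := q)
      (by rw [hq.total]; exact one_ne_zero)
    obtain ⟨h1, h2⟩ := hs x hx
    have h3 : (0 : ℝ) < (G (f x)).card := by exact_mod_cast Finset.card_pos.2 ⟨g x, h2⟩
    have h4 : ((G (f x)).card : ℝ) ^ d ≤ ∑ a ∈ F, ((G a).card : ℝ) ^ d :=
      Finset.single_le_sum (f := fun a => ((G a).card : ℝ) ^ d) (fun a _ => by positivity) h1
    have h5 : 0 < ((G (f x)).card : ℝ) ^ d := pow_pos h3 d
    linarith
  have hsum : ∑ x, q x * ((((G (f x)).card : ℝ) ^ d / B) / im q f (f x)) ≤ 1 := by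
    refine (sum_div_im f F (fun a => ((G a).card : ℝ) ^ d / B) (fun a _ => by positivity)
      (fun x hx => (hs x hx).1)).trans ?_
    rw [← Finset.sum_div, div_le_one hB0]
    exact hB
  have hpt : ∀ x, q x * (d * Real.log ((G (f x)).card)) + q x * -Real.log (im q f (f x)) ≤
      q x * ((((G (f x)).card : ℝ) ^ d / B) / im q f (f x)) - q x + q x * Real.log B := by
    intro x
    by_cases hx : q x = 0
    · simp [hx]
    have h1 := im_pos hq f hx
    have h3 : (0 : ℝ) < (G (f x)).card := by
      exact_mod_cast Finset.card_pos.2 ⟨g x, (hs x hx).2⟩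
    have h4 : Real.log ((((G (f x)).card : ℝ) ^ d / B) / im q f (f x)) =
        d * Real.log ((G (f x)).card) - Real.log B - Real.log (im q f (f x)) := by
      rw [Real.log_div (by positivity) h1.ne', Real.log_div (by positivity) hB0.ne',
        Real.log_pow]
    have h5 : 0 < (((G (f x)).card : ℝ) ^ d / B) / im q f (f x) := by positivity
    have h6 := Real.log_le_sub_one_of_pos h5
    rw [h4] at h6
    have h7 := mul_le_mul_of_nonneg_left h6 (hq.nonneg x)
    linarith
  have := Finset.sum_le_sum fun x (_ : x ∈ Finset.univ) => hpt x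
  rw [Finset.sum_add_distrib, Finset.sum_add_distrib, Finset.sum_sub_distrib, hq.total,
    ← Finset.sum_mul, hq.total, one_mul] at this
  have e3 : H q f = ∑ x, q x * -Real.log (im q f (f x)) := rfl
  have e4 : ∑ x, q x * (d * Real.log ((G (f x)).card)) =
      d * ∑ x, q x * Real.log ((G (f x)).card) := by
    rw [Finset.mul_sum]
    refine Finset.sum_congr rfl fun x _ => ?_
    ring
  rw [← e3, e4] at this
  have h8 := mul_le_mul_of_nonneg_left hA (Nat.cast_nonneg d : (0 : ℝ) ≤ d)
  linarith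

end one

theorem t_GC : S_GC := by
  intro Ω γ α β _ p Q f g F G d B hp hs hB
  rw [CH_eq_sum hp, CH_eq_sum hp, Finset.mul_sum, Finset.mul_sum, ← Finset.sum_sub_distrib]
  calc ∑ x, (d * (p x * H (cd p Q (Q x)) fun ω => (f ω, g ω)) -
        (d - 1) * (p x * H (cd p Q (Q x)) f)) ≤ ∑ x, p x * Real.log B := by
        refine Finset.sum_le_sum fun x _ => ?_
        by_cases hx : p x = 0
        · simp [hx]
        have hq : IsLaw (cd p Q (Q x)) := cd_law hp Q (im_pos hp Q hx).ne'
        have hsupp : ∀ y, cd p Q (Q x) y ≠ 0 → Q y = Q x ∧ p y ≠ 0 := by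
          intro y hy
          unfold cd at hy
          by_cases h1 : Q y = Q x
          · refine ⟨h1, fun h2 => hy ?_⟩
            rw [if_pos h1, h2, zero_div]
          · exact absurd (if_neg h1) hy
        have h := step1 hq f g (F (Q x)) (G (Q x)) d B (fun y hy => by
          obtain ⟨h1, h2⟩ := hsupp y hy
          rw [← h1]
          exact hs y h2) (hB x hx)
        have h3 := mul_le_mul_of_nonneg_left h (hp.nonneg x)
        linarith
    _ = Real.log B := by rw [← Finset.sum_mul, hp.total, one_mul]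

end Pool.Agent.W554.SPX
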